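import Pool.Agent.Helper50.BK.Par
import Pool.Agent.Helper50.BO.Top
import Pool.Agent.Helper92.BO.StK
import Pool.Agent.Helper98.BO.StK

/-! THEOREM K from the round theorem: numbers. -/

namespace Pool.Agent.Helper50.BK

open Matrix Finset Pool.Agent.Helper50.BO Pool.Agent.Helper66.BO Pool.Agent.Helper60.BO
  Pool.Agent.Helper92.BK Pool.Agent.Helper98.BK

/-- the induction over the rounds (helper92) -/
def RoundsK (C : ℝ) : Prop := ∀ (V J A : Type) [Fintype V] [Fintype J] [Fintype A]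
    [DecidableEq V] [DecidableEq J] (a : V → J → ℝ) (t R0 Lh K0 K : ℕ) (Λ s : A → ℝ) (k : V → ℕ)
    (Λm sm β0 Θ N T0 : ℝ),
    Nonempty A → (∀ v j, |a v j| ≤ 1) → 1 ≤ t → 2 ≤ R0 → 1 ≤ Lh → (∀ x, 1 ≤ Λ x) →
    (∀ x, Λ x ≤ Λm) → (∀ x, s x ≤ sm) → 16 ≤ sm → sm ≤ R0 → 1 ≤ β0 → (∀ x, β0 ^ 2 ≤ Λ x) → 1 ≤ Θ →
    (∀ x, 2 * (β0 * √(64 * t / Λ x)) ≤ Θ) →
    (∀ Y : ℝ, 0 ≤ Y → Y < sm → 2 / Fintype.card A * ∑ x, min √((if s x ≤ Y then 1 else Λ x)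
      * (64 * t) / Λ x) (1 + √(Y * (64 * t) / Λ x)) ≤ Θ) →
    (∀ i u, k u = i → Fintype.card A ≤ 2 * (Finset.univ.filter fun x =>
      Λ x * lv (LMK a (Λ x) (s x) R0 k (i + 1)) (a u) ≤ 64 * t).card) →
    (∀ i, ∀ y : J → ℝ, ∑ u ∈ exq k i, (a u ⬝ᵥ y) ^ 2
      ≤ 16 * R0 ^ 2 * (Lh * (y ⬝ᵥ y) + ∑ v ∈ lvl k (i + 1), (a v ⬝ᵥ y) ^ 2)) →
    (∀ v, k v < K) →
    (Fintype.card V : ℝ) + Fintype.card (J ⊕ V) + Fintype.card J + 3 ≤ N →
    C * (√(64 * t) + Θ * (1 + gs (LL (64 * t * (2 * (16 * R0 ^ 2 * Lh) * Λm)) N))) ≤ T0 →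
    0 ≤ C → 0 ≤ T0 → K * (T0 / β0) ≤ 1 →
    Real.exp (C * LL (64 * t * (2 * (16 * R0 ^ 2 * Lh) * Λm)) N) * √(6 * (16 * R0 ^ 2 * Lh) * sm)
      ≤ √R0 ^ K0 →
    ∃ χ : V → ℝ, (∀ v, |χ v| = 1) ∧ ∀ j, |∑ v, a v j * χ v| ≤ T0 * (K / β0 + K0 + 2) + 4

theorem finK_aux (hS3 : S3K) (hTHP : THP) {C : ℝ} (hC : 0 ≤ C) (hRK : RoundsK C) :
    ∃ C' : ℝ, 0 ≤ C' ∧ ∀ (V J : Type) [Fintype V] [Fintype J] [DecidableEq V] [DecidableEq J]
      [Nonempty V] [Nonempty J] (a : V → J → ℝ) (t : ℕ), 1 ≤ t → (∀ v j, |a v j| ≤ 1) →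
      (∀ v, ∑ j, a v j ^ 2 ≤ t) → Fintype.card J ≤ t * (Fintype.card V * Fintype.card V) →
      ∃ χ : V → ℝ, (∀ v, |χ v| = 1) ∧ ∀ j, |∑ v, a v j * χ v|
        ≤ C' * (√t + gs (MM t (Fintype.card V))) := by
  obtain ⟨D, hD, hD2⟩ := exists_D hC
  set w : ℝ := 55 * (1 + Real.log D) with ha
  set K0 : ℕ := ⌈10 * C⌉₊ + 4 with hK0
  have hD1 : (32 : ℝ) ≤ D := by exact_mod_cast hD
  have hlD : 0 ≤ Real.log D := Real.log_nonneg (by linarith)
  have ha1 : 1 ≤ w := by rw [ha]; linarith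
  refine ⟨5 + (K0 + 2) * (C * (100000 * w) * 3), by positivity, ?_⟩
  intro V J _ _ _ _ _ _ a t ht ha1' hdeg hJ
  set n := Fintype.card V with hn
  have hn1 : 1 ≤ n := Fintype.card_pos
  set l := Nat.log 2 (n + 1) + 1 with hl
  have hl1 : 1 ≤ l := by omega
  have hnl : n + 1 < 2 ^ l := Nat.lt_pow_succ_log_self (by norm_num) _
  set q := 3 * l + t + 3 with hq
  set Lh := 16 * q * t with hLh
  set m := Nat.log 2 (t + l) + 1 with hm
  set β0 := D * (t + l) ^ 2 with hβ0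
  set s0 := 4 * β0 ^ 8 with hs0
  set R0 := s0 * 2 ^ m with hR0
  have hm1 : 1 ≤ m := by omega
  set x : ℝ := ((t + l : ℕ) : ℝ) with hx
  set b : ℝ := 1 + Real.log x with hb
  have ht1 : (1 : ℝ) ≤ t := by exact_mod_cast ht
  have hl1' : (1 : ℝ) ≤ l := by exact_mod_cast hl1
  have hxe : x = t + l := by rw [hx]; push_cast; ring
  have hx2 : 2 ≤ x := by rw [hxe]; linarith
  have hx1 : 1 ≤ x := by linarith
  have hx0 : 0 < x := by linarith
  have hb1 : 1 ≤ b := by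
    have := Real.log_nonneg hx1
    rw [hb]; linarith
  have hmb : b ≤ 2 * (m : ℝ) := by
    have h1 : t + l < 2 ^ m := Nat.lt_pow_succ_log_self (by norm_num) _
    have h2 : x ≤ (2 : ℝ) ^ m := by
      have : ((t + l : ℕ) : ℝ) ≤ ((2 ^ m : ℕ) : ℝ) := by exact_mod_cast h1.le
      push_cast at this
      rw [hx]; push_cast; exact this
    have h3 := Real.log_le_log hx0 h2
    rw [Real.log_pow] at h3
    have h4 := Real.log_two_lt_d9
    have h5 : (1 : ℝ) ≤ m := by exact_mod_cast hm1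
    rw [hb]
    nlinarith
  -- naturals
  have hβx : ((β0 : ℕ) : ℝ) = D * x ^ 2 := by rw [hβ0, hx]; push_cast; ring
  have hx2sq : x ≤ x ^ 2 := by nlinarith
  have hβ32 : 32 * x ≤ (β0 : ℝ) := by
    rw [hβx]
    calc 32 * x ≤ D * x ^ 2 := mul_le_mul hD1 hx2sq hx0.le (by linarith)
      _ = _ := rfl
  have hβ1 : (1 : ℝ) ≤ β0 := by linarith
  have hβpos : (0 : ℝ) < β0 := by linarith
  have hs0r : ((s0 : ℕ) : ℝ) = 4 * (β0 : ℝ) ^ 8 := by rw [hs0]; push_cast; ring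
  have hβ8 : (1 : ℝ) ≤ (β0 : ℝ) ^ 8 := one_le_pow₀ hβ1
  have hs016 : (16 : ℝ) ≤ s0 := by
    rw [hs0r]
    have : (64 : ℝ) ≤ β0 := by linarith
    have h2 : (β0 : ℝ) ≤ (β0 : ℝ) ^ 8 := by
      calc (β0 : ℝ) = (β0 : ℝ) ^ 1 := (pow_one _).symm
        _ ≤ (β0 : ℝ) ^ 8 := pow_le_pow_right₀ hβ1 (by norm_num)
    linarith
  set s : Fin m → ℝ := fun y => (s0 : ℝ) * 2 ^ (y : ℕ) with hs
  set Λ : Fin m → ℝ := fun y => s y / Real.log (1 + s y) with hΛ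
  have hs_ge : ∀ y, (s0 : ℝ) ≤ s y := by
    intro y
    simp only [hs]
    have : (1 : ℝ) ≤ 2 ^ (y : ℕ) := one_le_pow₀ (by norm_num)
    nlinarith
  have hs16 : ∀ y, (16 : ℝ) ≤ s y := fun y => hs016.trans (hs_ge y)
  have hlog1 : ∀ y, 1 ≤ Real.log (1 + s y) := by
    intro y
    rw [Real.le_log_iff_exp_le (by have := hs16 y; linarith)]
    have h1 := Real.exp_one_lt_d9
    have := hs16 y
    linarith
  have hs_le : ∀ y, s y ≤ (R0 : ℝ) := by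
    intro y
    simp only [hs, hR0]
    push_cast
    apply mul_le_mul_of_nonneg_left _ (by linarith)
    exact pow_le_pow_right₀ (by norm_num) y.2.le
  have hΛ_le : ∀ y, Λ y ≤ (R0 : ℝ) := by
    intro y
    refine le_trans ?_ (hs_le y)
    exact div_le_self (by have := hs16 y; linarith) (hlog1 y)
  have hΛβ : ∀ y, (β0 : ℝ) ^ 4 ≤ Λ y := by
    intro y
    have h16 := hs16 y
    have hpos : 0 < Real.log (1 + s y) := by have := hlog1 y; linarith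
    simp only [hΛ]
    rw [le_div_iff₀ hpos]
    have h1 := log_le_two_sqrt (show 0 ≤ s y by linarith)
    have h2 : 2 * (β0 : ℝ) ^ 4 ≤ √(s y) := by
      rw [show 2 * (β0 : ℝ) ^ 4 = √((2 * (β0 : ℝ) ^ 4) ^ 2) by rw [Real.sqrt_sq (by positivity)]]
      apply Real.sqrt_le_sqrt
      calc (2 * (β0 : ℝ) ^ 4) ^ 2 = 4 * (β0 : ℝ) ^ 8 := by ring
        _ = (s0 : ℝ) := hs0r.symm
        _ ≤ s y := hs_ge y
    calc (β0 : ℝ) ^ 4 * Real.log (1 + s y) ≤ (β0 : ℝ) ^ 4 * (2 * √(s y)) :=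
          mul_le_mul_of_nonneg_left h1 (by positivity)
      _ = (2 * (β0 : ℝ) ^ 4) * √(s y) := by ring
      _ ≤ √(s y) * √(s y) := mul_le_mul_of_nonneg_right h2 (Real.sqrt_nonneg _)
      _ = s y := Real.mul_self_sqrt (by linarith)
  have hβ2 : (1 : ℝ) ≤ (β0 : ℝ) ^ 2 := one_le_pow₀ hβ1
  have hβ24 : (β0 : ℝ) ^ 2 ≤ (β0 : ℝ) ^ 4 := pow_le_pow_right₀ hβ1 (by norm_num)
  have h64 : 64 * (t : ℝ) ≤ (β0 : ℝ) ^ 2 := by
    have h1 : (t : ℝ) ≤ x := by rw [hxe]; linarith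
    have h2 : (64 : ℝ) ≤ β0 := by linarith
    nlinarith
  have hΛ1 : ∀ y, 1 ≤ Λ y := fun y => hβ2.trans (hβ24.trans (hΛβ y))
  have hΛ64 : ∀ y, 64 * (t : ℝ) ≤ Λ y := fun y => h64.trans (hβ24.trans (hΛβ y))
  have hLh1 : 1 ≤ Lh := by
    rw [hLh]
    exact Nat.one_le_iff_ne_zero.2 (by positivity)
  have hR0r : (2 : ℝ) ≤ R0 := by
    have h1 := hs_le ⟨0, by omega⟩
    have h2 := hs16 ⟨0, by omega⟩
    linarith
  have hR02 : 2 ≤ R0 := by exact_mod_cast hR0r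
  have ht2 : t + 1 ≤ 2 ^ t := Nat.lt_two_pow_self
  have hqpow : 2 ^ q = 8 * 2 ^ t * (2 ^ l * (2 ^ l * 2 ^ l)) := by
    rw [hq]
    clear_value l
    ring
  have hA : Nonempty (Fin m) := ⟨⟨0, by omega⟩⟩
  obtain ⟨k, k0, k1, k3⟩ := hS3 V J (Fin m) a t R0 Lh q Λ s ht ‹_› ‹_› hA hdeg hΛ64
    (fun y => by have := hs16 y; linarith)
    (fun y => by
      have hpos : 0 < Real.log (1 + s y) := by have := hlog1 y; linarith
      simp only [hΛ]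
      rw [div_mul_cancel₀ _ hpos.ne'])
    hR02 (by omega) (by rw [hLh]) (by
      rw [hqpow]
      have h1 : 3 * (n + 2) * Fintype.card J ≤ 3 * (2 * 2 ^ l) * (2 ^ t * (2 ^ l * 2 ^ l)) := by
        apply Nat.mul_le_mul
        · apply Nat.mul_le_mul_left
          omega
        · refine hJ.trans (Nat.mul_le_mul (by omega) (Nat.mul_le_mul (by omega) (by omega)))
      refine lt_of_le_of_lt h1 ?_
      have h2 : 0 < 2 ^ t * (2 ^ l * (2 ^ l * 2 ^ l)) := by positivity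
      calc 3 * (2 * 2 ^ l) * (2 ^ t * (2 ^ l * 2 ^ l)) = 6 * (2 ^ t * (2 ^ l * (2 ^ l * 2 ^ l))) := by
            ring
        _ < 8 * (2 ^ t * (2 ^ l * (2 ^ l * 2 ^ l))) := by omega
        _ = _ := by ring)
  have hkK : ∀ v, k v < l + 2 := by
    intro v
    have h1 := k0 v
    have h2 : 4 ^ k v ≤ (R0 ^ 2) ^ k v := by
      apply Nat.pow_le_pow_left
      calc 4 = 2 ^ 2 := by norm_num
        _ ≤ R0 ^ 2 := Nat.pow_le_pow_left hR02 2
    have h3 : 4 ^ k v < 2 ^ (l + 2) := by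
      calc 4 ^ k v ≤ 4 * n := h2.trans h1
        _ < 2 ^ l * 2 ^ 2 := by omega
        _ = 2 ^ (l + 2) := (pow_add 2 l 2).symm
    have h4 : (4 : ℕ) ^ k v = 2 ^ (2 * k v) := by
      rw [pow_mul]; norm_num
    rw [h4] at h3
    have := (Nat.pow_lt_pow_iff_right (by norm_num : 1 < 2)).1 h3
    omega
  obtain ⟨hLL, hlg, hLL5, h96⟩ := parK_bounds hD ht hl1
  rw [← hq] at hLL hLL5 h96
  rw [← hβ0, ← hs0, ← hm, ← hR0, ← ha, ← hx, ← hb] at hLL hlg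
  rw [← hβ0, ← hs0, ← hm, ← hR0] at hLL5 h96
  rw [← hLh] at hLL hLL5 h96
  set Lg := LL (64 * (t : ℝ) * (2 * (16 * (R0 : ℝ) ^ 2 * (Lh : ℝ)) * (R0 : ℝ))) (2 ^ q) with hLg
  set lg := Real.log (1 + (R0 : ℝ)) with hlgd
  have hlg1 : 1 ≤ lg := by
    rw [hlgd, Real.le_log_iff_exp_le (by linarith)]
    have h1 := Real.exp_one_lt_d9
    linarith
  have hLg1 : 1 ≤ Lg := by
    rw [hLg]; unfold LL
    have hR0' : (1 : ℝ) ≤ R0 := by linarith
    have hLh' : (1 : ℝ) ≤ Lh := by exact_mod_cast hLh1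
    have h1 : (1 : ℝ) ≤ R0 ^ 2 := one_le_pow₀ hR0'
    have h2 : (1 : ℝ) ≤ 16 * (R0 : ℝ) ^ 2 * (Lh : ℝ) := by nlinarith
    have h3 : (1 : ℝ) ≤ 2 * (16 * (R0 : ℝ) ^ 2 * (Lh : ℝ)) * (R0 : ℝ) := by nlinarith
    have h4 : (1 : ℝ) ≤ 64 * (t : ℝ) * (2 * (16 * (R0 : ℝ) ^ 2 * (Lh : ℝ)) * (R0 : ℝ)) := by
      nlinarith
    have h5 := Real.log_nonneg h4
    have h6 : 0 ≤ Real.log (Real.log (2 ^ q)) := by
      apply Real.log_nonneg
      rw [Real.log_pow]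
      have h7 : (6 : ℝ) ≤ q := by
        have : 6 ≤ q := by omega
        exact_mod_cast this
      have h8 := Real.log_two_gt_d9
      nlinarith
    linarith
  set Θ : ℝ := ThP m (64 * t) lg with hΘ
  have hsqrt : √(64 * (t : ℝ)) = 8 * √t := by
    rw [Real.sqrt_mul (by norm_num), show (64 : ℝ) = 8 ^ 2 by norm_num,
      Real.sqrt_sq (by norm_num)]
  have hllg := Real.log_nonneg hlg1
  have hΘ3 : 3 ≤ Θ := by
    rw [hΘ]; unfold ThP
    have : 0 ≤ 2 / (m : ℝ) * (√(64 * (t : ℝ)) * (2 * Real.log lg + 6)) := by positivity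
    linarith
  set T0 : ℝ := C * (100000 * w) * (√t + gs b) with hT0
  have hgsb : 0 ≤ gs b := gs_nonneg hb1
  have hT00 : 0 ≤ T0 := by rw [hT0]; positivity
  have hbx : b ≤ x := by
    have := Real.log_le_sub_one_of_pos hx0
    rw [hb]; linarith
  have hε : ((l + 2 : ℕ) : ℝ) * (T0 / (β0 : ℝ)) ≤ 1 := by
    rw [← mul_div_assoc, div_le_one hβpos, hβx]
    have h1 : ((l + 2 : ℕ) : ℝ) ≤ 2 * x := by rw [hxe]; push_cast; linarith
    have h2 : √(t : ℝ) ≤ x := by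
      rw [Real.sqrt_le_left hx0.le]
      have : (t : ℝ) ≤ x := by rw [hxe]; linarith
      nlinarith
    have h3 : gs b ≤ 4 * x := (gs_le hb1).trans (by linarith)
    calc ((l + 2 : ℕ) : ℝ) * T0 ≤ (2 * x) * (C * (100000 * w) * (5 * x)) := by
          apply mul_le_mul h1 _ hT00 (by linarith)
          rw [hT0]
          apply mul_le_mul_of_nonneg_left _ (by positivity)
          linarith
      _ = (1000000 * C * w) * x ^ 2 := by ring
      _ ≤ D * x ^ 2 := mul_le_mul_of_nonneg_right hD2 (by positivity)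
  have hsum : (Fintype.card V : ℝ) + Fintype.card (J ⊕ V) + Fintype.card J + 3 ≤ 2 ^ q := by
    have h1 : n + (Fintype.card J + n) + Fintype.card J + 3 ≤ 2 ^ q := by
      rw [hqpow]
      have h2 : 1 ≤ 2 ^ l := Nat.one_le_two_pow
      have h3 : n + 1 ≤ 2 ^ l := hnl.le
      have h4 : Fintype.card J ≤ 2 ^ t * (2 ^ l * 2 ^ l) :=
        hJ.trans (Nat.mul_le_mul (by omega) (Nat.mul_le_mul (by omega) (by omega)))
      have h5 : 1 ≤ 2 ^ t := Nat.one_le_two_pow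
      have h9 : 2 ≤ 2 ^ l := by omega
      have h8 : 1 ≤ 2 ^ t * (2 ^ l * 2 ^ l) :=
        Nat.one_le_iff_ne_zero.2 (by positivity)
      have h6 : 2 ^ l ≤ 2 ^ t * (2 ^ l * 2 ^ l) := by
        calc 2 ^ l = 1 * (2 ^ l * 1) := by ring
          _ ≤ 2 ^ t * (2 ^ l * 2 ^ l) := Nat.mul_le_mul h5 (Nat.mul_le_mul_left _ h2)
      calc n + (Fintype.card J + n) + Fintype.card J + 3
          ≤ 8 * (2 ^ t * (2 ^ l * 2 ^ l)) := by omega
        _ = 8 * 2 ^ t * (1 * (2 ^ l * 2 ^ l)) := by ring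
        _ ≤ 8 * 2 ^ t * (2 ^ l * (2 ^ l * 2 ^ l)) :=
            Nat.mul_le_mul_left _ (Nat.mul_le_mul_right _ h2)
    rw [Fintype.card_sum]
    have h2 : ((n + (Fintype.card J + n) + Fintype.card J + 3 : ℕ) : ℝ) ≤ ((2 ^ q : ℕ) : ℝ) := by
      exact_mod_cast h1
    push_cast at h2 ⊢
    rw [← hn]
    linarith
  have hm0 : (0 : ℝ) < m := by
    have : (1 : ℝ) ≤ m := by exact_mod_cast hm1
    linarith
  have hR0e : (R0 : ℝ) = s0 * 2 ^ m := by rw [hR0]; push_cast; ring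
  have htiny : Real.exp (C * Lg) * √(6 * (16 * (R0 : ℝ) ^ 2 * Lh) * R0) ≤ √(R0 : ℝ) ^ K0 := by
    rw [hK0]
    exact tiny_cond hC (by linarith) h96 hLL5
  obtain ⟨χ, c1, c2⟩ := hRK V J (Fin m) a t R0 Lh K0 (l + 2) Λ s k R0 R0 β0 Θ (2 ^ q) T0
    hA ha1' ht hR02 hLh1 hΛ1 hΛ_le hs_le (hs016.trans ((hs_ge ⟨0, by omega⟩).trans (hs_le _))) le_rfl hβ1 (fun y => hβ24.trans (hΛβ y)) (by linarith)
    (fun y => by
      have h1 : √(64 * (t : ℝ) / Λ y) ≤ 1 / (β0 : ℝ) := by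
        rw [Real.sqrt_le_left (by positivity), div_pow, one_pow,
          div_le_div_iff₀ (by have := hΛ1 y; linarith) (by positivity), one_mul]
        calc 64 * (t : ℝ) * (β0 : ℝ) ^ 2 ≤ (β0 : ℝ) ^ 2 * (β0 : ℝ) ^ 2 :=
              mul_le_mul_of_nonneg_right h64 (by positivity)
          _ = (β0 : ℝ) ^ 4 := by ring
          _ ≤ Λ y := hΛβ y
      have h2 : (β0 : ℝ) * √(64 * (t : ℝ) / Λ y) ≤ β0 * (1 / β0) :=
        mul_le_mul_of_nonneg_left h1 hβpos.le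
      rw [mul_one_div, div_self hβpos.ne'] at h2
      linarith)
    (fun Y hY _ => by
      have h1 := theta_le hTHP hm1 (s0 := s0) (τ := 64 * t) hs016 (by positivity) (Λ := Λ) (s := s)
        (fun y => rfl) (fun y => rfl) hΛ64 (fun y => by have := hΛ1 y; linarith) hY
      rw [← hR0e, ← hlgd, ← hΘ] at h1
      linarith)
    k1 k3 hkK hsum (by
      rw [hT0, hΘ]
      unfold ThP
      exact T0_le hC ht1 ha1 hb1 hm0 hmb hLg1 hLL hlg1 hlg) hC hT00 hε htiny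
  refine ⟨χ, c1, fun j => (c2 j).trans ?_⟩
  set M := MM t n with hM
  have hM1 : 1 ≤ M := MM_ge ht1 (Nat.cast_nonneg n)
  have hbM : b ≤ 2 * M := by
    rw [hb, hx, hM, hl]
    exact logx_le ht
  have hst : 1 ≤ √(t : ℝ) := by rw [Real.one_le_sqrt]; exact ht1
  have hgsM : 0 ≤ gs M := gs_nonneg hM1
  have hgb : gs b ≤ 3 * gs M := by
    refine (gs_mono hb1 hbM).trans ((gs_mul (by norm_num) hM1).trans ?_)
    apply mul_le_mul_of_nonneg_right _ hgsM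
    unfold gs
    have h1 : √(2 : ℝ) ≤ 3 / 2 := by
      rw [Real.sqrt_le_left (by norm_num)]; norm_num
    have h2 := Real.log_two_lt_d9
    have h3 := Real.log_two_gt_d9
    nlinarith [Real.sqrt_nonneg (2 : ℝ)]
  have h1 : T0 * (((l + 2 : ℕ) : ℝ) / (β0 : ℝ)) ≤ 1 := by
    calc T0 * (((l + 2 : ℕ) : ℝ) / (β0 : ℝ)) = ((l + 2 : ℕ) : ℝ) * (T0 / (β0 : ℝ)) := by ring
      _ ≤ 1 := hε
  have h2 : T0 ≤ C * (100000 * w) * 3 * (√t + gs M) := by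
    rw [hT0, mul_assoc (C * (100000 * w)) 3]
    apply mul_le_mul_of_nonneg_left _ (by positivity)
    linarith
  have h3 : 0 ≤ √(t : ℝ) + gs M := by linarith
  calc T0 * (((l + 2 : ℕ) : ℝ) / (β0 : ℝ) + K0 + 2) + 4
      = T0 * (((l + 2 : ℕ) : ℝ) / (β0 : ℝ)) + (K0 + 2) * T0 + 4 := by ring
    _ ≤ 1 * (√t + gs M) + (K0 + 2) * (C * (100000 * w) * 3 * (√t + gs M)) + 4 * (√t + gs M) := by
        have h4 : (K0 + 2 : ℝ) * T0 ≤ (K0 + 2) * (C * (100000 * w) * 3 * (√t + gs M)) :=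
          mul_le_mul_of_nonneg_left h2 (by positivity)
        linarith
    _ = _ := by ring

end Pool.Agent.Helper50.BK
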