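import Pool.Agent.Helper99.BK.Stmts

/-!
# GCb: many points of bounded size, complex cubic fields
-/

set_option autoImplicit false

namespace Pool.Helper99.BK

open NumberField

theorem gcb_gel {K : Type} [Field K] [NumberField K] (τ : K →+* ℂ) (π : 𝓞 K) (hπ : π ≠ 0)
    (ε1 : (𝓞 K)ˣ) (p : Fin 3 → ℤ) :
    Real.log ‖τ (gel π ε1 1 p)‖ =
      Real.log ‖τ (((ε1 ^ (p 1) : (𝓞 K)ˣ) : 𝓞 K) : K)‖ + (p 0 : ℝ) * Real.log ‖τ (π : K)‖ := by
  have h1 : gel π ε1 1 p = (π : K) ^ (p 0) * (((ε1 ^ (p 1) : (𝓞 K)ˣ) : 𝓞 K) : K) := by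
    unfold gel
    have e := NumberField.Units.coe_zpow (K := K) ε1 (p 1)
    rw [← e]
    simp
  have h2 : ‖τ (π : K)‖ ≠ 0 := by
    rw [norm_ne_zero_iff, map_ne_zero]
    exact_mod_cast hπ
  have h3 : ‖τ (((ε1 ^ (p 1) : (𝓞 K)ˣ) : 𝓞 K) : K)‖ ≠ 0 := by
    rw [norm_ne_zero_iff, map_ne_zero]
    exact NumberField.Units.coe_ne_zero _
  rw [h1, map_mul, norm_mul, Real.log_mul (by
    rw [map_zpow₀, norm_zpow]
    exact zpow_ne_zero _ h2) h3, map_zpow₀, norm_zpow, Real.log_zpow, add_comm]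

theorem gcb_sum (lam : Fin 3 → ℂ) (h0 : (lam 0).re = 0) (h1 : (lam 1).re = 0)
    (h2 : lam 2 = 2 * Real.pi * Complex.I) (p : Fin 3 → ℤ) :
    ‖∑ i, ((p i : ℤ) : ℂ) * lam i‖ =
      |(p 0 : ℝ) * (lam 0).im + (p 1 : ℝ) * (lam 1).im + 2 * Real.pi * (p 2 : ℝ)| := by
  have e : ∑ i, ((p i : ℤ) : ℂ) * lam i =
      (((p 0 : ℝ) * (lam 0).im + (p 1 : ℝ) * (lam 1).im + 2 * Real.pi * (p 2 : ℝ) : ℝ) : ℂ) *
        Complex.I := by
    rw [Fin.sum_univ_three, h2]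
    apply Complex.ext
    · simp [h0, h1]
    · simp
      ring
  rw [e, norm_mul, Complex.norm_I, mul_one, Complex.norm_real, Real.norm_eq_abs]

/-- the interval contains many points -/
theorem gcb_int (y ρ : ℝ) (j : ℕ) (hj : (j : ℝ) + 1 ≤ ρ / Real.pi) :
    |y + 2 * Real.pi * ((⌈(-ρ - y) / (2 * Real.pi)⌉ + (j : ℤ) : ℤ) : ℝ)| ≤ ρ := by
  have hp := Real.pi_pos
  have h1 := Int.le_ceil ((-ρ - y) / (2 * Real.pi))
  have h2 := Int.ceil_lt_add_one ((-ρ - y) / (2 * Real.pi))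
  rw [div_le_iff₀ (by positivity)] at h1
  rw [le_div_iff₀ hp] at hj
  have h3 : (⌈(-ρ - y) / (2 * Real.pi)⌉ : ℝ) * (2 * Real.pi) < -ρ - y + 2 * Real.pi := by
    have := mul_lt_mul_of_pos_right h2 (show (0 : ℝ) < 2 * Real.pi by positivity)
    rw [add_mul, div_mul_cancel₀ _ (by positivity)] at this
    linarith
  push_cast
  rw [abs_le]
  constructor
  · have : (0 : ℝ) ≤ (j : ℝ) * Real.pi := by positivity
    nlinarith
  · nlinarith

theorem gcb_fin {K : Type} [Field K] [NumberField K] (c : ℝ) (hc : 0 < c)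
    (σ : Fin 3 → (K →+* ℂ)) (hσ : ∀ τ : K →+* ℂ, ∃ i, τ = σ i) (π : 𝓞 K) (hπ : π ≠ 0)
    (ε1 : (𝓞 K)ˣ) (hUC : UC K c ε1) (lam : Fin 3 → ℂ) (A : ℝ) (hA : 1 ≤ A)
    (h0 : (lam 0).re = 0) (h1 : (lam 1).re = 0) (h2 : lam 2 = 2 * Real.pi * Complex.I) (ρ : ℝ) :
    {p : Fin 3 → ℤ | nrm σ π ε1 1 A lam p ≤ ρ}.Finite := by
  have hp := Real.pi_gt_three
  -- bounds
  let S : ℝ := ∑ i, |Real.log ‖σ i (π : K)‖|
  have hS0 : 0 ≤ S := Finset.sum_nonneg fun i _ => abs_nonneg _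
  let B1 : ℝ := (ρ + ρ * S) / c
  let B2 : ℝ := ρ + ρ * |(lam 0).im| + B1 * |(lam 1).im|
  have key : ∀ p : Fin 3 → ℤ, nrm σ π ε1 1 A lam p ≤ ρ →
      |(p 0 : ℝ)| ≤ ρ ∧ |(p 1 : ℝ)| ≤ B1 ∧ |(p 2 : ℝ)| ≤ B2 := by
    intro p hp'
    unfold nrm at hp'
    have ha : 0 ≤ ∑ i, |Real.log ‖σ i (gel π ε1 1 p)‖| := Finset.sum_nonneg fun i _ => abs_nonneg _
    have hb : 0 ≤ ‖∑ i, ((p i : ℤ) : ℂ) * lam i‖ := norm_nonneg _
    have hc' : 0 ≤ A * |(p 0 : ℝ)| := by positivity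
    have q0 : |(p 0 : ℝ)| ≤ ρ := by
      have : |(p 0 : ℝ)| ≤ A * |(p 0 : ℝ)| := le_mul_of_one_le_left (abs_nonneg _) hA
      linarith
    have hρ : 0 ≤ ρ := (abs_nonneg _).trans q0
    have q1 : |(p 1 : ℝ)| ≤ B1 := by
      obtain ⟨τ, hτ⟩ := hUC.2 (p 1)
      obtain ⟨i, rfl⟩ := hσ τ
      have e := gcb_gel (σ i) π hπ ε1 p
      have h3 : |Real.log ‖σ i (gel π ε1 1 p)‖| ≤ ρ := by
        have := Finset.single_le_sum (f := fun i => |Real.log ‖σ i (gel π ε1 1 p)‖|)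
          (fun i _ => abs_nonneg _) (Finset.mem_univ i)
        linarith
      have h4 : |Real.log ‖σ i (π : K)‖| ≤ S :=
        Finset.single_le_sum (f := fun i => |Real.log ‖σ i (π : K)‖|)
          (fun i _ => abs_nonneg _) (Finset.mem_univ i)
      have h5 : |Real.log ‖σ i (((ε1 ^ (p 1) : (𝓞 K)ˣ) : 𝓞 K) : K)‖| ≤ ρ + ρ * S := by
        have e2 : Real.log ‖σ i (((ε1 ^ (p 1) : (𝓞 K)ˣ) : 𝓞 K) : K)‖ =
            Real.log ‖σ i (gel π ε1 1 p)‖ - (p 0 : ℝ) * Real.log ‖σ i (π : K)‖ := by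
          rw [e]; ring
        rw [e2]
        refine (abs_sub _ _).trans ?_
        rw [abs_mul]
        exact add_le_add h3 (mul_le_mul q0 h4 (abs_nonneg _) hρ)
      show |(p 1 : ℝ)| ≤ (ρ + ρ * S) / c
      rw [le_div_iff₀ hc, mul_comm]
      exact hτ.trans h5
    refine ⟨q0, q1, ?_⟩
    rw [gcb_sum lam h0 h1 h2 p] at hp'
    have h6 : |(p 0 : ℝ) * (lam 0).im + (p 1 : ℝ) * (lam 1).im + 2 * Real.pi * (p 2 : ℝ)| ≤ ρ := by
      linarith
    have h7 : |2 * Real.pi * (p 2 : ℝ)| ≤ B2 := by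
      have e3 : 2 * Real.pi * (p 2 : ℝ) = ((p 0 : ℝ) * (lam 0).im + (p 1 : ℝ) * (lam 1).im +
          2 * Real.pi * (p 2 : ℝ)) - (p 0 : ℝ) * (lam 0).im - (p 1 : ℝ) * (lam 1).im := by ring
      rw [e3]
      refine (abs_sub _ _).trans ?_
      have h8 := abs_sub ((p 0 : ℝ) * (lam 0).im + (p 1 : ℝ) * (lam 1).im +
          2 * Real.pi * (p 2 : ℝ)) ((p 0 : ℝ) * (lam 0).im)
      have h9 : |(p 0 : ℝ) * (lam 0).im| ≤ ρ * |(lam 0).im| := by
        rw [abs_mul]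
        exact mul_le_mul_of_nonneg_right q0 (abs_nonneg _)
      have h10 : |(p 1 : ℝ) * (lam 1).im| ≤ B1 * |(lam 1).im| := by
        rw [abs_mul]
        exact mul_le_mul_of_nonneg_right q1 (abs_nonneg _)
      show _ ≤ ρ + ρ * |(lam 0).im| + B1 * |(lam 1).im|
      linarith
    refine le_trans ?_ h7
    rw [abs_mul, abs_of_pos (show (0 : ℝ) < 2 * Real.pi by positivity)]
    exact le_mul_of_one_le_left (abs_nonneg _) (by linarith)
  -- box
  obtain ⟨N, hN⟩ := exists_nat_ge (max ρ (max B1 B2))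
  refine (Set.finite_Icc (fun _ : Fin 3 => -(N : ℤ)) (fun _ => (N : ℤ))).subset ?_
  intro p hp'
  obtain ⟨k0, k1, k2⟩ := key p hp'
  have hN0 : ρ ≤ N := (le_max_left _ _).trans hN
  have hN1 : B1 ≤ N := ((le_max_left _ _).trans (le_max_right _ _)).trans hN
  have hN2 : B2 ≤ N := ((le_max_right _ _).trans (le_max_right _ _)).trans hN
  have hall : ∀ i, |p i| ≤ (N : ℤ) := by
    intro i
    fin_cases i
    · have := k0.trans hN0
      exact_mod_cast this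
    · have := k1.trans hN1
      exact_mod_cast this
    · have := k2.trans hN2
      exact_mod_cast this
  exact ⟨fun i => (abs_le.1 (hall i)).1, fun i => (abs_le.1 (hall i)).2⟩

theorem st_GCb (hPH : ST_PH) (hTTF : ST_TTF) (hEMB : ST_EMB3) : ST_GCb := by
  classical
  intro c hc
  obtain ⟨C, hC1, hPH⟩ := hPH
  refine ⟨21952 * C, by linarith, ?_⟩
  intro K _ _ hK hcard σ hσ π hπ ε1 hUC lam A h ν hh hdisc hA hN hν hl0 hl1 hl2 ρ hρ
  have hpi := Real.pi_pos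
  obtain ⟨hemb, -⟩ := hEMB K hK σ hσ
  have hfin := gcb_fin c hc σ hemb π hπ ε1 hUC lam A hA hl0 hl1 hl2 ρ
  obtain ⟨r, hr⟩ : ∃ r : ℝ, ρ = 14 * r := ⟨ρ / 14, by ring⟩
  subst hr
  have hCAh : C * 2 ≤ C * (A + h) := by nlinarith
  have hr1 : C * (A + h) ≤ r := by nlinarith
  have hr15 : 15 ≤ r := by nlinarith
  have key := hPH K hK π hπ A h ν r hh hdisc hA hN hν hr1
  rw [hcard] at key
  -- the number of the points in the interval
  obtain ⟨M, hM1, hM2⟩ : ∃ M : ℕ, (∀ j < M, (j : ℝ) + 1 ≤ r / Real.pi) ∧ r / 4 ≤ M := by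
    refine ⟨⌊r / Real.pi⌋₊, fun j hj => ?_, ?_⟩
    · have h1 : ((j + 1 : ℕ) : ℝ) ≤ ⌊r / Real.pi⌋₊ := by exact_mod_cast hj
      have h2 := Nat.floor_le (show 0 ≤ r / Real.pi by positivity)
      push_cast at h1
      linarith
    · have h1 := Nat.lt_floor_add_one (r / Real.pi)
      have h2 : r / 4 + 1 ≤ r / Real.pi := by
        rw [le_div_iff₀ hpi]
        have h3 := Real.pi_lt_d2
        nlinarith
      linarith
  -- the map
  have hu := hUC.1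
  choose mf hmf using hu
  let T : Set (ℤ × (𝓞 K)ˣ) := TT K π A r
  let S : Set (Fin 3 → ℤ) := {p | nrm σ π ε1 1 A lam p ≤ 14 * r}
  have hTfin : T.Finite := hTTF K π hπ A r (by linarith)
  let yy : ℤ → ℤ → ℝ := fun k m => (k : ℝ) * (lam 0).im + (m : ℝ) * (lam 1).im
  let pp : ℤ → ℤ → ℕ → (Fin 3 → ℤ) := fun k m j =>
    ![k, m, ⌈(-r - yy k m) / (2 * Real.pi)⌉ + (j : ℤ)]
  have hpp : ∀ x ∈ T, ∀ j < M, pp x.1 (mf x.2) j ∈ S := by
    intro x hx j hj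
    obtain ⟨hx1, hx2⟩ := hx
    have e0 : pp x.1 (mf x.2) j 0 = x.1 := rfl
    have e1 : pp x.1 (mf x.2) j 1 = mf x.2 := rfl
    have e2 : pp x.1 (mf x.2) j 2 = ⌈(-r - yy x.1 (mf x.2)) / (2 * Real.pi)⌉ + (j : ℤ) := rfl
    show nrm σ π ε1 1 A lam (pp x.1 (mf x.2) j) ≤ 14 * r
    unfold nrm
    rw [gcb_sum lam hl0 hl1 hl2, e0, e1, e2]
    have h1 := gcb_int (yy x.1 (mf x.2)) r j (hM1 j hj)
    have h2 : ∀ i, |Real.log ‖σ i (gel π ε1 1 (pp x.1 (mf x.2) j))‖| ≤ r := by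
      intro i
      rw [gcb_gel (σ i) π hπ ε1, e0, e1]
      have h3 := hx2 (σ i)
      rcases hmf x.2 with h4 | h4
      · rw [← h4]
        exact h3
      · have h5 : ‖σ i (((ε1 ^ (mf x.2) : (𝓞 K)ˣ) : 𝓞 K) : K)‖ = ‖σ i ((x.2 : 𝓞 K) : K)‖ := by
          have h6 : (((ε1 ^ (mf x.2) : (𝓞 K)ˣ) : 𝓞 K) : K) = -((x.2 : 𝓞 K) : K) := by
            have h7 : ε1 ^ (mf x.2) = -x.2 := (neg_eq_iff_eq_neg.2 h4).symm
            rw [h7]
            simp
          rw [h6, map_neg, norm_neg]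
        rw [h5]
        exact h3
    have h3 : ∑ i, |Real.log ‖σ i (gel π ε1 1 (pp x.1 (mf x.2) j))‖| ≤ 3 * r := by
      have := Finset.sum_le_card_nsmul Finset.univ
        (fun i => |Real.log ‖σ i (gel π ε1 1 (pp x.1 (mf x.2) j))‖|) r (fun i _ => h2 i)
      simpa using this
    have h4 : A * |(x.1 : ℝ)| ≤ r := by
      rw [mul_comm]
      exact hx1
    have h5 : |(x.1 : ℝ) * (lam 0).im + ((mf x.2 : ℤ) : ℝ) * (lam 1).im + 2 * Real.pi *
        ((⌈(-r - yy x.1 (mf x.2)) / (2 * Real.pi)⌉ + (j : ℤ) : ℤ) : ℝ)| ≤ r := h1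
    linarith
  let F : T × Fin M → S × Bool := fun z =>
    (⟨pp z.1.1.1 (mf z.1.1.2) z.2, hpp z.1.1 z.1.2 z.2 z.2.2⟩, decide (z.1.1.2 = ε1 ^ (mf z.1.1.2)))
  have hF : Function.Injective F := by
    rintro ⟨⟨⟨k, u⟩, hku⟩, j⟩ ⟨⟨⟨k', u'⟩, hku'⟩, j'⟩ heq
    have q1 : pp k (mf u) j = pp k' (mf u') j' := congrArg (fun z : S × Bool => (z.1 : Fin 3 → ℤ)) heq
    have q2 : decide (u = ε1 ^ (mf u)) = decide (u' = ε1 ^ (mf u')) :=
      congrArg (fun z : S × Bool => z.2) heq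
    have r0 : k = k' := congrFun q1 0
    have r1 : mf u = mf u' := congrFun q1 1
    have r2 : ⌈(-r - yy k (mf u)) / (2 * Real.pi)⌉ + ((j : ℕ) : ℤ) =
        ⌈(-r - yy k' (mf u')) / (2 * Real.pi)⌉ + ((j' : ℕ) : ℤ) := congrFun q1 2
    rw [r0, r1] at r2
    have r3 : j = j' := by
      apply Fin.ext
      omega
    rw [decide_eq_decide, r1] at q2
    have r4 : u = u' := by
      rcases hmf u with h4 | h4 <;> rcases hmf u' with h5 | h5
      · rw [h4, h5, r1]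
      · rw [r1] at h4
        exact h4.trans (q2.1 h4).symm
      · exact (q2.2 h5).trans h5.symm
      · rw [h4, h5, r1]
    subst r0 r4 r3
    rfl
  have : Finite S := hfin
  have : Finite T := hTfin
  have hcount := Nat.card_le_card_of_injective F hF
  rw [Nat.card_prod, Nat.card_prod, Nat.card_eq_fintype_card (α := Fin M), Fintype.card_fin,
    Nat.card_eq_fintype_card (α := Bool), Fintype.card_bool, Nat.card_coe_set_eq,
    Nat.card_coe_set_eq] at hcount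
  have hcount' : (T.ncard : ℝ) * M ≤ S.ncard * 2 := by exact_mod_cast hcount
  have hTS : (T.ncard : ℝ) * r ≤ 8 * S.ncard := by
    have : (0 : ℝ) ≤ T.ncard := Nat.cast_nonneg _
    nlinarith
  have key' : r ^ 2 ≤ C * ν * A * h * (T.ncard : ℝ) := by
    have : (2 - 1 : ℕ) = 1 := rfl
    rw [this, pow_one] at key
    exact key
  have hν0 : 0 ≤ ν := le_trans (Nat.cast_nonneg _) hν
  have hX : 0 ≤ C * ν * A * h := by positivity
  have hS0 : (0 : ℝ) ≤ S.ncard := Nat.cast_nonneg _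
  show (14 * r) ^ 3 ≤ 21952 * C * ν * A * h ^ 2 * (S.ncard : ℝ)
  calc (14 * r) ^ 3 = 2744 * (r * r ^ 2) := by ring
    _ ≤ 2744 * (r * (C * ν * A * h * (T.ncard : ℝ))) := by
        have : r * r ^ 2 ≤ r * (C * ν * A * h * (T.ncard : ℝ)) :=
          mul_le_mul_of_nonneg_left key' (by linarith)
        linarith
    _ = 2744 * (C * ν * A * h * ((T.ncard : ℝ) * r)) := by ring
    _ ≤ 2744 * (C * ν * A * h * (8 * S.ncard)) := by
        have : C * ν * A * h * ((T.ncard : ℝ) * r) ≤ C * ν * A * h * (8 * S.ncard) :=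
          mul_le_mul_of_nonneg_left hTS hX
        linarith
    _ = 21952 * C * ν * A * S.ncard * h := by ring
    _ ≤ 21952 * C * ν * A * S.ncard * h ^ 2 := by
        apply mul_le_mul_of_nonneg_left _ (by positivity)
        nlinarith
    _ = 21952 * C * ν * A * h ^ 2 * (S.ncard : ℝ) := by ring

end Pool.Helper99.BK
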