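import Pool.Agent.Helper50.BK.TopK
import Pool.Agent.Helper92.BO.RoundsK

/-! `RoundsK C` from helper92's induction and `RTK C`. -/

namespace Pool.Agent.Helper50.BK

open Matrix Finset Pool.Agent.Helper50.BO Pool.Agent.Helper66.BO Pool.Agent.Helper60.BO
  Pool.Agent.Helper92.BK Pool.Agent.Helper98.BK

theorem roundsK_of (hR1 : R1K2) {C : ℝ} (hRT : RTK C) : RoundsK C := by
  intro V J A _ _ _ _ _ a t R0 Lh K0 K Λ s k Λm sm β0 Θ N T0 hA ha ht hR hLh hΛ1 hΛm hs hsm16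
    hsm hβ1 hβ hΘ1 hΘg hΘ P1 P3 hK hN hT0 hC hT00 hε hK0
  have hR0 : (16 : ℝ) ≤ R0 := hsm16.trans hsm
  have hR4 : 4 ≤ R0 := by
    have h1 : ((4 : ℕ) : ℝ) ≤ (R0 : ℝ) := by push_cast; linarith
    exact_mod_cast h1
  obtain ⟨χ, c1, c2⟩ := roundsK hR1 hRT a ha (t := t) (R0 := R0) (Lh := Lh) (Λ := Λ) (s := s)
    (k := k) hA ht hR4 hLh hΛ1 hΛm hs hsm hβ1 hβ hΘ1 hΘg hΘ P1 P3 hK hN hT0 hC hT00 hε
    (K0 := K0) (W := Real.exp (C * LL (64 * t * (2 * (16 * R0 ^ 2 * Lh) * Λm)) N)) le_rfl (by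
      have h1 : (Real.exp (C * LL (64 * t * (2 * (16 * R0 ^ 2 * Lh) * Λm)) N)
          * √(6 * (16 * R0 ^ 2 * Lh) * sm)) ^ 2 ≤ (√(R0 : ℝ) ^ K0) ^ 2 := by
        apply pow_le_pow_left₀ (by positivity) hK0
      rw [mul_pow, Real.sq_sqrt (by positivity), ← pow_mul, mul_comm K0 2, pow_mul,
        Real.sq_sqrt (by positivity)] at h1
      refine le_trans ?_ h1
      have h2 : 0 ≤ Real.exp (C * LL (64 * t * (2 * (16 * R0 ^ 2 * Lh) * Λm)) N) ^ 2 := by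
        positivity
      have h3 : 96 * (16 * (R0 : ℝ) ^ 2 * Lh) ≤ 6 * (16 * R0 ^ 2 * Lh) * sm := by
        have h4 : 0 ≤ (16 * (R0 : ℝ) ^ 2 * Lh) := by positivity
        nlinarith
      rw [mul_comm]
      exact mul_le_mul_of_nonneg_left h3 h2)
  refine ⟨χ, c1, fun j => (c2 j).trans ?_⟩
  have : (K : ℝ) / β0 + (K0 + 2) = K / β0 + K0 + 2 := by ring
  rw [this]
  linarith

end Pool.Agent.Helper50.BK
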