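import Pool.Agent.Helper50.BO.FinP3

/-! Numeric bounds of the parameters for THEOREM K. -/

namespace Pool.Agent.Helper50.BK

open Finset Pool.Agent.Helper50.BO

/-- bounds for the parameters -/
theorem parK_bounds {D t l : ℕ} (hD : 32 ≤ D) (ht : 1 ≤ t) (hl : 1 ≤ l) :
    LL (64 * (t : ℝ) * (2 * (16 * ((4 * (D * (t + l) ^ 2) ^ 8 * 2 ^ (Nat.log 2 (t + l) + 1) : ℕ) : ℝ)
      ^ 2 * ((16 * (3 * l + t + 3) * t : ℕ) : ℝ))
      * ((4 * (D * (t + l) ^ 2) ^ 8 * 2 ^ (Nat.log 2 (t + l) + 1) : ℕ) : ℝ))) (2 ^ (3 * l + t + 3))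
      ≤ 55 * (1 + Real.log D) * (1 + Real.log ((t + l : ℕ) : ℝ)) ∧
    Real.log (1 + ((4 * (D * (t + l) ^ 2) ^ 8 * 2 ^ (Nat.log 2 (t + l) + 1) : ℕ) : ℝ))
      ≤ 55 * (1 + Real.log D) * (1 + Real.log ((t + l : ℕ) : ℝ)) ∧
    LL (64 * (t : ℝ) * (2 * (16 * ((4 * (D * (t + l) ^ 2) ^ 8 * 2 ^ (Nat.log 2 (t + l) + 1) : ℕ) : ℝ)
      ^ 2 * ((16 * (3 * l + t + 3) * t : ℕ) : ℝ))
      * ((4 * (D * (t + l) ^ 2) ^ 8 * 2 ^ (Nat.log 2 (t + l) + 1) : ℕ) : ℝ))) (2 ^ (3 * l + t + 3))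
      ≤ 5 * Real.log ((4 * (D * (t + l) ^ 2) ^ 8 * 2 ^ (Nat.log 2 (t + l) + 1) : ℕ) : ℝ) ∧
    96 * ((16 * (3 * l + t + 3) * t : ℕ) : ℝ)
      ≤ ((4 * (D * (t + l) ^ 2) ^ 8 * 2 ^ (Nat.log 2 (t + l) + 1) : ℕ) : ℝ) := by
  set x : ℝ := ((t + l : ℕ) : ℝ) with hx
  have hA1 : (32 : ℝ) ≤ D := by exact_mod_cast hD
  have ht1 : (1 : ℝ) ≤ t := by exact_mod_cast ht
  have hl1 : (1 : ℝ) ≤ l := by exact_mod_cast hl
  have hxe : x = t + l := by rw [hx]; push_cast; ring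
  have hx2 : 2 ≤ x := by rw [hxe]; linarith
  have hx1 : 1 ≤ x := by linarith
  have htx : (t : ℝ) ≤ x := by rw [hxe]; linarith
  have hq : ((3 * l + t + 3 : ℕ) : ℝ) ≤ 5 * x := by rw [hxe]; push_cast; linarith
  have hq0 : (6 : ℝ) ≤ ((3 * l + t + 3 : ℕ) : ℝ) := by push_cast; linarith
  have hLh : ((16 * (3 * l + t + 3) * t : ℕ) : ℝ) ≤ 80 * x ^ 2 := by
    have e : ((16 * (3 * l + t + 3) * t : ℕ) : ℝ) = 16 * ((3 * l + t + 3 : ℕ) : ℝ) * t := by
      push_cast; ring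
    rw [e]
    calc 16 * ((3 * l + t + 3 : ℕ) : ℝ) * t ≤ 16 * (5 * x) * x := by
          apply mul_le_mul _ htx (by linarith) (by positivity)
          linarith
      _ = _ := by ring
  have hLh1 : (1 : ℝ) ≤ ((16 * (3 * l + t + 3) * t : ℕ) : ℝ) := by
    have : 1 ≤ 16 * (3 * l + t + 3) * t := by
      have : 1 * 1 ≤ 16 * (3 * l + t + 3) * t := Nat.mul_le_mul (by omega) ht
      simpa using this
    exact_mod_cast this
  have hpow : ((2 ^ (Nat.log 2 (t + l) + 1) : ℕ) : ℝ) ≤ 2 * x := by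
    have h1 : 2 ^ Nat.log 2 (t + l) ≤ t + l := Nat.pow_log_le_self 2 (by omega)
    have h2 : 2 ^ (Nat.log 2 (t + l) + 1) ≤ 2 * (t + l) := by rw [pow_succ]; omega
    have h3 : ((2 ^ (Nat.log 2 (t + l) + 1) : ℕ) : ℝ) ≤ ((2 * (t + l) : ℕ) : ℝ) := by
      exact_mod_cast h2
    refine h3.trans (le_of_eq ?_)
    rw [hx]; push_cast; ring
  have hpow1 : (1 : ℝ) ≤ ((2 ^ (Nat.log 2 (t + l) + 1) : ℕ) : ℝ) := by
    have : 1 ≤ 2 ^ (Nat.log 2 (t + l) + 1) := Nat.one_le_two_pow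
    exact_mod_cast this
  have hpowx : x ≤ ((2 ^ (Nat.log 2 (t + l) + 1) : ℕ) : ℝ) := by
    have h1 : t + l < 2 ^ (Nat.log 2 (t + l) + 1) := Nat.lt_pow_succ_log_self (by norm_num) _
    rw [hx]
    exact_mod_cast h1.le
  set R := ((4 * (D * (t + l) ^ 2) ^ 8 * 2 ^ (Nat.log 2 (t + l) + 1) : ℕ) : ℝ) with hR
  have hRe : R = 4 * (D * x ^ 2) ^ 8 * ((2 ^ (Nat.log 2 (t + l) + 1) : ℕ) : ℝ) := by
    rw [hR, hx]; push_cast; ring
  have hRle : R ≤ 8 * D ^ 8 * x ^ 17 := by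
    rw [hRe]
    calc 4 * ((D : ℝ) * x ^ 2) ^ 8 * ((2 ^ (Nat.log 2 (t + l) + 1) : ℕ) : ℝ)
        ≤ 4 * ((D : ℝ) * x ^ 2) ^ 8 * (2 * x) := mul_le_mul_of_nonneg_left hpow (by positivity)
      _ = _ := by ring
  have hRge : 4 * D ^ 8 * x ^ 17 ≤ R := by
    rw [hRe]
    calc 4 * (D : ℝ) ^ 8 * x ^ 17 = 4 * ((D : ℝ) * x ^ 2) ^ 8 * x := by ring
      _ ≤ _ := mul_le_mul_of_nonneg_left hpowx (by positivity)
  have hR1 : 1 ≤ R := by
    rw [hRe]
    have h1 : 1 ≤ (D : ℝ) * x ^ 2 := by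
      have : 1 ≤ x ^ 2 := one_le_pow₀ hx1
      nlinarith
    have h2 : 1 ≤ ((D : ℝ) * x ^ 2) ^ 8 := one_le_pow₀ h1
    nlinarith
  set Lh := ((16 * (3 * l + t + 3) * t : ℕ) : ℝ) with hLhd
  set q := ((3 * l + t + 3 : ℕ) : ℝ) with hqd
  have hlogx : 0 ≤ Real.log x := Real.log_nonneg hx1
  have hlogA : 0 ≤ Real.log D := Real.log_nonneg (by linarith)
  have hD0 : (0 : ℝ) < D := by linarith
  have hx0 : 0 < x := by linarith
  have hB : 64 * (t : ℝ) * (2 * (16 * R ^ 2 * Lh) * R) ≤ D ^ 30 * x ^ 54 := by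
    calc 64 * (t : ℝ) * (2 * (16 * R ^ 2 * Lh) * R)
        = 2048 * (t * (R ^ 3 * Lh)) := by ring
      _ ≤ 2048 * (x * ((8 * D ^ 8 * x ^ 17) ^ 3 * (80 * x ^ 2))) := by
          apply mul_le_mul_of_nonneg_left _ (by norm_num)
          apply mul_le_mul htx _ (by positivity) (by positivity)
          apply mul_le_mul _ hLh (by linarith) (by positivity)
          exact pow_le_pow_left₀ (by linarith) hRle 3
      _ = 83886080 * (D ^ 24 * x ^ 54) := by ring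
      _ ≤ D ^ 6 * (D ^ 24 * x ^ 54) := by
          apply mul_le_mul_of_nonneg_right _ (by positivity)
          calc (83886080 : ℝ) ≤ 32 ^ 6 := by norm_num
            _ ≤ (D : ℝ) ^ 6 := pow_le_pow_left₀ (by norm_num) hA1 6
      _ = _ := by ring
  have hB0 : 0 < 64 * (t : ℝ) * (2 * (16 * R ^ 2 * Lh) * R) := by positivity
  have h1 : Real.log (64 * (t : ℝ) * (2 * (16 * R ^ 2 * Lh) * R))
      ≤ 30 * Real.log D + 54 * Real.log x := by
    refine (Real.log_le_log hB0 hB).trans (le_of_eq ?_)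
    rw [Real.log_mul (by positivity) (by positivity), Real.log_pow, Real.log_pow]
    push_cast; ring
  have h2 : Real.log (Real.log (2 ^ (3 * l + t + 3))) ≤ 2 + Real.log x := by
    rw [Real.log_pow, ← hqd]
    have h3 : q * Real.log 2 ≤ 5 * x := by
      have h4 := Real.log_two_lt_d9
      have h5 := Real.log_two_gt_d9
      nlinarith
    have h6 : 0 < q * Real.log 2 := by
      have h5 := Real.log_two_gt_d9
      apply mul_pos (by linarith) (by linarith)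
    refine (Real.log_le_log h6 h3).trans ?_
    rw [Real.log_mul (by norm_num) (by linarith)]
    have h7 : Real.log 5 ≤ 2 := by
      rw [Real.log_le_iff_le_exp (by norm_num)]
      have h8 := Real.exp_one_gt_d9
      have h9 : Real.exp 2 = Real.exp 1 * Real.exp 1 := by rw [← Real.exp_add]; norm_num
      rw [h9]; nlinarith
    linarith
  have hRlog : 1 + 8 * Real.log D + 17 * Real.log x ≤ Real.log R := by
    have h3 := Real.log_le_log (by positivity) hRge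
    rw [Real.log_mul (by positivity) (by positivity), Real.log_mul (by positivity) (by positivity),
      Real.log_pow, Real.log_pow] at h3
    have h4 : (1 : ℝ) ≤ Real.log 4 := by
      rw [Real.le_log_iff_exp_le (by norm_num)]
      have := Real.exp_one_lt_d9
      linarith
    push_cast at h3
    linarith
  refine ⟨?_, ?_, ?_, ?_⟩
  · unfold LL
    nlinarith [mul_nonneg hlogA hlogx]
  · have h1 : 1 + R ≤ D ^ 9 * x ^ 17 := by
      calc 1 + R ≤ 2 * (8 * D ^ 8 * x ^ 17) := by linarith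
        _ = 16 * (D ^ 8 * x ^ 17) := by ring
        _ ≤ D * (D ^ 8 * x ^ 17) := by
            apply mul_le_mul_of_nonneg_right _ (by positivity)
            linarith
        _ = _ := by ring
    have h2 : Real.log (1 + R) ≤ 9 * Real.log D + 17 * Real.log x := by
      refine (Real.log_le_log (by linarith) h1).trans (le_of_eq ?_)
      rw [Real.log_mul (by positivity) (by positivity), Real.log_pow, Real.log_pow]
      push_cast; ring
    nlinarith [mul_nonneg hlogA hlogx]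
  · unfold LL
    nlinarith
  · calc 96 * Lh ≤ 96 * (80 * x ^ 2) := mul_le_mul_of_nonneg_left hLh (by norm_num)
      _ = 7680 * x ^ 2 := by ring
      _ ≤ (4 * D ^ 8) * x ^ 17 := by
          apply mul_le_mul _ (pow_le_pow_right₀ hx1 (by norm_num)) (by positivity) (by positivity)
          calc (7680 : ℝ) ≤ 4 * 32 ^ 8 := by norm_num
            _ ≤ 4 * (D : ℝ) ^ 8 := by
              apply mul_le_mul_of_nonneg_left _ (by norm_num)
              exact pow_le_pow_left₀ (by norm_num) hA1 8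
      _ ≤ R := hRge

/-- the condition for the tiny rows -/
theorem tiny_cond {C R Lh L : ℝ} (hC : 0 ≤ C) (hR : 1 ≤ R) (h : 96 * Lh ≤ R)
    (hL : L ≤ 5 * Real.log R) :
    Real.exp (C * L) * √(6 * (16 * R ^ 2 * Lh) * R) ≤ √R ^ (⌈10 * C⌉₊ + 4) := by
  have hR0 : 0 < R := by linarith
  have hlR := Real.log_nonneg hR
  have h1 : √(6 * (16 * R ^ 2 * Lh) * R) ≤ R ^ 2 := by
    rw [Real.sqrt_le_left (by positivity)]
    calc 6 * (16 * R ^ 2 * Lh) * R = (96 * Lh) * R ^ 3 := by ring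
      _ ≤ R * R ^ 3 := mul_le_mul_of_nonneg_right h (by positivity)
      _ = _ := by ring
  have h2 : √R = Real.exp (Real.log R / 2) := by
    rw [← Real.exp_log (Real.sqrt_pos.2 hR0), Real.log_sqrt hR0.le]
  have h3 : √R ^ (⌈10 * C⌉₊ + 4) = Real.exp ((⌈10 * C⌉₊ + 4) * (Real.log R / 2)) := by
    rw [h2, ← Real.exp_nat_mul]
    push_cast
    ring_nf
  have h4 : R ^ 2 = Real.exp (2 * Real.log R) := by
    rw [mul_comm, Real.exp_mul, Real.exp_log hR0]
    norm_num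
  have h5 : 10 * C ≤ (⌈10 * C⌉₊ : ℝ) := Nat.le_ceil _
  calc Real.exp (C * L) * √(6 * (16 * R ^ 2 * Lh) * R)
      ≤ Real.exp (C * (5 * Real.log R)) * R ^ 2 := by
        apply mul_le_mul _ h1 (Real.sqrt_nonneg _) (Real.exp_pos _).le
        rw [Real.exp_le_exp]
        exact mul_le_mul_of_nonneg_left hL hC
    _ = Real.exp (C * (5 * Real.log R) + 2 * Real.log R) := by rw [h4, Real.exp_add]
    _ ≤ √R ^ (⌈10 * C⌉₊ + 4) := by
        rw [h3, Real.exp_le_exp]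
        nlinarith

end Pool.Agent.Helper50.BK
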