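import Pool.Agent.Helper50.BK.FinK
import Pool.Agent.Helper43.BF.MinForm

/-! THEOREM K from the round theorem: rows of tiny norm, minimum of the two dimensions. -/

namespace Pool.Agent.Helper50.BK

open Matrix Finset Pool.Agent.Helper50.BO Pool.Agent.Helper66.BO Pool.Agent.Helper60.BO
  Pool.Agent.Helper92.BK Pool.Agent.Helper98.BK

/-- THEOREM K in terms of the number of columns of `a` (the elements). -/
theorem finK0 (hS3 : S3K) (hTHP : THP) {C : ℝ} (hC : 0 ≤ C) (hRK : RoundsK C) :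
    ∃ C' : ℝ, 0 ≤ C' ∧ ∀ (V J : Type) [Fintype V] [Fintype J] (a : V → J → ℝ) (t : ℕ), 1 ≤ t →
      (∀ v j, |a v j| ≤ 1) → (∀ v, ∑ j, a v j ^ 2 ≤ t) →
      ∃ χ : V → ℝ, (∀ v, |χ v| = 1) ∧ ∀ j, |∑ v, a v j * χ v|
        ≤ C' * (√t + gs (MM t (Fintype.card V))) := by
  classical
  obtain ⟨C', hC'0, hC'⟩ := finK_aux hS3 hTHP hC hRK
  refine ⟨C' + 1, by positivity, ?_⟩
  intro V J _ _ a t ht ha hdeg
  have ht1 : (1 : ℝ) ≤ t := by exact_mod_cast ht
  have hst : 1 ≤ √(t : ℝ) := by rw [Real.one_le_sqrt]; exact ht1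
  have hg0 : 0 ≤ gs (MM t (Fintype.card V)) := gs_nonneg (MM_ge ht1 (Nat.cast_nonneg _))
  -- rows of tiny norm
  have htiny : ∀ j, (Fintype.card V : ℝ) * ∑ v, a v j ^ 2 ≤ 1 → ∀ χ : V → ℝ, (∀ v, |χ v| = 1) →
      |∑ v, a v j * χ v| ≤ 1 := by
    intro j hj χ hχ
    have h1 : (∑ v, a v j * χ v) ^ 2 ≤ (∑ v, a v j ^ 2) * ∑ v, χ v ^ 2 :=
      Finset.sum_mul_sq_le_sq_mul_sq _ _ _
    have h2 : ∑ v, χ v ^ 2 = Fintype.card V := by
      have : ∀ v, χ v ^ 2 = 1 := fun v => by rw [← sq_abs, hχ v]; norm_num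
      rw [Finset.sum_congr rfl fun v _ => this v]
      simp
    rw [h2] at h1
    exact abs_le_one_iff_mul_self_le_one.2 (by nlinarith)
  let J' := {j : J // 1 < (Fintype.card V : ℝ) * ∑ v, a v j ^ 2}
  have hrest : (∃ χ : V → ℝ, (∀ v, |χ v| = 1) ∧ ∀ j : J', |∑ v, a v j * χ v|
      ≤ C' * (√t + gs (MM t (Fintype.card V)))) := by
    by_cases hV : Nonempty V
    swap
    · rw [not_nonempty_iff] at hV
      refine ⟨fun _ => 1, fun v => (hV.false v).elim, fun j => ?_⟩
      have h0 : ∑ v, a v j.1 * (1 : ℝ) = 0 :=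
        Finset.sum_eq_zero fun v _ => (hV.false v).elim
      have h1 : 0 ≤ C' * (√t + gs (MM t (Fintype.card V))) := by positivity
      change |∑ v, a v j.1 * (1 : ℝ)| ≤ _
      rw [h0, abs_zero]
      exact h1
    by_cases hJ : Nonempty J'
    swap
    · rw [not_nonempty_iff] at hJ
      exact ⟨fun _ => 1, fun v => by simp, fun j => (hJ.false j).elim⟩
    refine hC' V J' (fun v j => a v j.1) t ht (fun v j => ha v j.1) (fun v => ?_) ?_
    · refine le_trans ?_ (hdeg v)
      have h1 : ∑ j : J', a v j.1 ^ 2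
          = ∑ j ∈ Finset.univ.filter (fun j : J => 1 < (Fintype.card V : ℝ) * ∑ v, a v j ^ 2),
            a v j ^ 2 := by
        rw [← Finset.sum_subtype_eq_sum_filter]
        refine Finset.sum_bij (fun j _ => j) (fun j _ => by simp) (fun _ _ _ _ h => h)
          (fun j hj => ⟨j, Finset.mem_univ _, rfl⟩) (fun _ _ => rfl)
      rw [h1]
      exact Finset.sum_le_sum_of_subset_of_nonneg (Finset.filter_subset _ _)
        fun _ _ _ => sq_nonneg _
    · have h1 : (Fintype.card J' : ℝ) ≤ ∑ j : J', (Fintype.card V : ℝ) * ∑ v, a v j.1 ^ 2 := by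
        have : ∑ _j : J', (1 : ℝ) = Fintype.card J' := by simp
        rw [← this]
        exact Finset.sum_le_sum fun j _ => j.2.le
      have h2 : ∑ j : J', (Fintype.card V : ℝ) * ∑ v, a v j.1 ^ 2
          ≤ ∑ j : J, (Fintype.card V : ℝ) * ∑ v, a v j ^ 2 := by
        have e : ∑ j : J', (Fintype.card V : ℝ) * ∑ v, a v j.1 ^ 2
            = ∑ j ∈ Finset.univ.filter (fun j : J => 1 < (Fintype.card V : ℝ) * ∑ v, a v j ^ 2),
              (Fintype.card V : ℝ) * ∑ v, a v j ^ 2 := by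
          rw [← Finset.sum_subtype_eq_sum_filter]
          refine Finset.sum_bij (fun j _ => j) (fun j _ => by simp) (fun _ _ _ _ h => h)
            (fun j hj => ⟨j, Finset.mem_univ _, rfl⟩) (fun _ _ => rfl)
        rw [e]
        exact Finset.sum_le_sum_of_subset_of_nonneg (Finset.filter_subset _ _)
          fun _ _ _ => mul_nonneg (Nat.cast_nonneg _) (Finset.sum_nonneg fun _ _ => sq_nonneg _)
      have h3 : ∑ j : J, (Fintype.card V : ℝ) * ∑ v, a v j ^ 2
          = (Fintype.card V : ℝ) * ∑ v, ∑ j, a v j ^ 2 := by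
        rw [← Finset.mul_sum, Finset.sum_comm]
      have h4 : ∑ v, ∑ j, a v j ^ 2 ≤ ∑ _v : V, (t : ℝ) := Finset.sum_le_sum fun v _ => hdeg v
      rw [Finset.sum_const, Finset.card_univ, nsmul_eq_mul] at h4
      have h5 : (Fintype.card J' : ℝ) ≤ (Fintype.card V : ℝ) * (Fintype.card V * t) := by
        calc (Fintype.card J' : ℝ) ≤ (Fintype.card V : ℝ) * ∑ v, ∑ j, a v j ^ 2 := by
              rw [← h3]; exact h1.trans h2
          _ ≤ _ := mul_le_mul_of_nonneg_left h4 (Nat.cast_nonneg _)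
      have h6 : ((Fintype.card J' : ℕ) : ℝ)
          ≤ ((t * (Fintype.card V * Fintype.card V) : ℕ) : ℝ) := by
        push_cast
        linarith
      exact_mod_cast h6
  obtain ⟨χ, c1, c2⟩ := hrest
  refine ⟨χ, c1, fun j => ?_⟩
  by_cases hj : 1 < (Fintype.card V : ℝ) * ∑ v, a v j ^ 2
  · exact (c2 ⟨j, hj⟩).trans (mul_le_mul_of_nonneg_right (by linarith) (by positivity))
  · have h1 := htiny j (not_lt.1 hj) χ c1
    have h2 : 0 ≤ C' * (√t + gs (MM t (Fintype.card V))) := by positivity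
    linarith

/-- THEOREM K with the smaller of the number of elements and the number of rows, real `t`. -/
theorem topK (hS3 : S3K) (hTHP : THP) {C : ℝ} (hC : 0 ≤ C) (hRK : RoundsK C) :
    ∃ C' : ℝ, 0 ≤ C' ∧ ∀ (V J : Type) [Fintype V] [Fintype J] (a : V → J → ℝ) (t : ℝ), 1 ≤ t →
      (∀ v j, |a v j| ≤ 1) → (∀ v, ∑ j, a v j ^ 2 ≤ t) →
      ∃ χ : V → ℤ, (∀ v, χ v = 1 ∨ χ v = -1) ∧ ∀ j, |∑ v, a v j * χ v|
        ≤ C' * (√t + gs (1 + Real.log (1 + Real.log ((min (Fintype.card V) (Fintype.card J) : ℕ)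
        + 1)))) := by
  classical
  obtain ⟨D, hD0, hD⟩ := finK0 hS3 hTHP hC hRK
  refine ⟨100 * D, by positivity, ?_⟩
  intro V J _ _ a t0 ht0 ha hdeg0
  -- natural degree
  set t : ℕ := ⌈t0⌉₊ with ht'
  have htt : t0 ≤ (t : ℝ) := Nat.le_ceil _
  have htt2 : (t : ℝ) ≤ 2 * t0 := by
    have := Nat.ceil_lt_add_one (show 0 ≤ t0 by linarith)
    rw [ht']
    linarith
  have ht1 : (1 : ℝ) ≤ t := ht0.trans htt
  have ht : 1 ≤ t := by exact_mod_cast ht1
  have hdeg : ∀ v, ∑ j, a v j ^ 2 ≤ (t : ℝ) := fun v => (hdeg0 v).trans htt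
  set N := min (Fintype.card V) (Fintype.card J) with hN
  have hb0 : 0 ≤ D * (√t + gs (MM t N)) := by
    have := gs_nonneg (MM_ge ht1 (Nat.cast_nonneg N))
    positivity
  have her : ∀ U : Finset V, U.card ≤ N → ∃ e : V → ℝ, (∀ i ∈ U, |e i| = 1) ∧
      (∀ i, i ∉ U → e i = 0) ∧ ∀ j, |∑ i, a i j * e i| ≤ D * (√t + gs (MM t N)) := by
    intro U hU
    obtain ⟨χ, c1, c2⟩ := hD U J (fun u j => a u j) t ht (fun u j => ha u j) (fun u => hdeg u)
    refine ⟨fun i => if h : i ∈ U then χ ⟨i, h⟩ else 0, fun i hi => ?_, fun i hi => ?_,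
      fun j => ?_⟩
    · simp only [hi, dif_pos]
      exact c1 _
    · simp only [hi, dif_neg, not_false_eq_true]
    · have h1 := c2 j
      have e1 : ∑ i, a i j * (if h : i ∈ U then χ ⟨i, h⟩ else 0) = ∑ u : U, a u j * χ u := by
        have a1 : ∑ i, a i j * (if h : i ∈ U then χ ⟨i, h⟩ else 0)
            = ∑ i ∈ U, a i j * (if h : i ∈ U then χ ⟨i, h⟩ else 0) := by
          symm
          apply Finset.sum_subset (Finset.subset_univ _)
          intro i _ hi
          simp only [hi, dif_neg, not_false_eq_true, mul_zero]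
        rw [a1, ← Finset.sum_coe_sort U]
        refine Finset.sum_congr rfl fun i _ => ?_
        simp only [i.2, dif_pos]
      rw [e1]
      refine h1.trans ?_
      have hUN : ((Fintype.card U : ℕ) : ℝ) ≤ N := by rw [Fintype.card_coe]; exact_mod_cast hU
      have g1 := MM_ge ht1 (Nat.cast_nonneg (Fintype.card U))
      have g2 : gs (MM t (Fintype.card U)) ≤ gs (MM t N) :=
        gs_mono g1 (MM_mono (Nat.cast_nonneg _) hUN)
      exact mul_le_mul_of_nonneg_left (by linarith) hD0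
  have hfin : ∃ χ : V → ℝ, (∀ i, |χ i| = 1) ∧ ∀ j, |∑ i, a i j * χ i|
      ≤ 2 * (D * (√t + gs (MM t N))) := by
    rcases le_total (Fintype.card V) (Fintype.card J) with h | h
    · obtain ⟨e, e1, -, e3⟩ := her Finset.univ (by rw [Finset.card_univ, hN, min_eq_left h])
      exact ⟨e, fun i => e1 i (Finset.mem_univ i), fun j => (e3 j).trans (by linarith)⟩
    · exact Pool.Agent.Helper43.BF.reduce (fun j i => a i j) (D * (√t + gs (MM t N)))
        (fun U hU => her U (by rw [hN, min_eq_right h]; exact hU))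
  obtain ⟨χ, c1, c2⟩ := hfin
  have hχ : ∀ v, ((if χ v = 1 then (1 : ℤ) else -1 : ℤ) : ℝ) = χ v := by
    intro v
    by_cases h : χ v = 1
    · simp [h]
    · have h3 : χ v = -1 := by
        rcases abs_eq (zero_le_one) |>.1 (c1 v) with h4 | h4
        · exact absurd h4 h
        · exact h4
      simp [h3]
      norm_num
  refine ⟨fun v => if χ v = 1 then 1 else -1, fun v => ?_, fun j => ?_⟩
  · by_cases h : χ v = 1
    · left; simp [h]
    · right; simp [h]
  · rw [Finset.sum_congr rfl fun v _ => by rw [hχ v]]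
    refine (c2 j).trans ?_
    have h3 := gs_MM_le ht1 (Nat.cast_nonneg N)
    have h4 := Real.sqrt_nonneg (t : ℝ)
    have h6 := Real.sqrt_nonneg t0
    have h7 : √(t : ℝ) ≤ 2 * √t0 := by
      rw [Real.sqrt_le_left (by positivity)]
      have := Real.sq_sqrt (show 0 ≤ t0 by linarith)
      nlinarith
    have h5 : 0 ≤ gs (1 + Real.log (1 + Real.log ((N : ℝ) + 1))) := by
      apply gs_nonneg
      have g0 : 0 ≤ Real.log ((N : ℝ) + 1) := Real.log_nonneg (by linarith [Nat.cast_nonneg (α := ℝ) N])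
      have := Real.log_nonneg (show 1 ≤ 1 + Real.log ((N : ℝ) + 1) by linarith)
      linarith
    calc 2 * (D * (√t + gs (MM t N)))
        ≤ 2 * (D * (50 * (√t0 + gs (1 + Real.log (1 + Real.log ((N : ℝ) + 1)))))) := by
          apply mul_le_mul_of_nonneg_left _ (by norm_num)
          apply mul_le_mul_of_nonneg_left _ hD0
          linarith
      _ = _ := by ring

end Pool.Agent.Helper50.BK
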